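import Pool.Agent.Helper93.TH3.StD

/-!
# Project TH3, module Cnt: counting the index sets
-/

set_option autoImplicit false

namespace Pool.Agent.Helper62.TH3

open Pool.Agent.Helper93.TH3
open Pool.Agent.Helper93.TLE (DDE)

/-- Counting the numbers below `c`. -/
private theorem inner (A c : ℕ) (h : c ≤ A) :
    (∑ i ∈ Finset.range A, if i < c then 1 else 0) = c := by
  rw [← Finset.sum_filter, Finset.sum_const, smul_eq_mul, mul_one]
  have : (Finset.range A).filter (fun i => i < c) = Finset.range c := by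
    ext i
    simp only [Finset.mem_filter, Finset.mem_range]
    omega
  rw [this, Finset.card_range]

/-- Gauss. -/
private theorem gauss (M : ℕ) : (∑ j ∈ Finset.range M, (M - j)) * 2 = M * (M + 1) := by
  induction M with
  | zero => simp
  | succ M ih =>
    rw [Finset.sum_range_succ']
    have h : (∑ k ∈ Finset.range M, (M + 1 - (k + 1))) = ∑ k ∈ Finset.range M, (M - k) :=
      Finset.sum_congr rfl fun k _ => by omega
    rw [h, add_mul, ih]
    simp only [Nat.sub_zero]
    ring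

/-- Terms `g (M - j)` with `g 0 = 0` vanish beyond `M`. -/
private theorem cut (g : ℕ → ℕ) (hg : g 0 = 0) (B M : ℕ) (h : M ≤ B) :
    ∑ j ∈ Finset.range B, g (M - j) = ∑ j ∈ Finset.range M, g (M - j) := by
  symm
  apply Finset.sum_subset
  · intro j hj
    simp only [Finset.mem_range] at hj ⊢
    omega
  · intro j _ hj
    simp only [Finset.mem_range] at hj
    rw [Nat.sub_eq_zero_of_le (by omega), hg]

/-- Splitting off the first coordinate. -/
private theorem split (A : ℕ) (p : ℕ → ℕ → ℕ → Prop) [∀ c i j, Decidable (p c i j)] :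
    ((Finset.range 3 ×ˢ Finset.range A ×ˢ Finset.range A).filter
      fun t : ℕ × ℕ × ℕ => p t.1 t.2.1 t.2.2).card =
      (∑ j ∈ Finset.range A, ∑ i ∈ Finset.range A, if p 0 i j then 1 else 0) +
      (∑ j ∈ Finset.range A, ∑ i ∈ Finset.range A, if p 1 i j then 1 else 0) +
      ∑ j ∈ Finset.range A, ∑ i ∈ Finset.range A, if p 2 i j then 1 else 0 := by
  rw [Finset.card_filter, Finset.sum_product, Finset.sum_range_succ, Finset.sum_range_succ,
    Finset.sum_range_one, Finset.sum_product_right, Finset.sum_product_right,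
    Finset.sum_product_right]

/-- Pairs with `i + j < M`. -/
private theorem pairs (A M : ℕ) (h : M ≤ A) :
    (∑ j ∈ Finset.range A, ∑ i ∈ Finset.range A, if i + j < M then 1 else 0) * 2 = M * (M + 1) := by
  rw [← gauss M, ← cut (fun x => x) rfl A M h]
  congr 1
  apply Finset.sum_congr rfl
  intro j _
  rw [← inner A (M - j) (by omega)]
  apply Finset.sum_congr rfl
  intro i _
  by_cases h : i + j < M
  · rw [if_pos h, if_pos (by omega)]
  · rw [if_neg h, if_neg (by omega)]

/-- Pairs with `e + i + 3 j < M`. -/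
private theorem pairs3 (A M e : ℕ) (h : M ≤ A) :
    (∑ j ∈ Finset.range A, ∑ i ∈ Finset.range A, if e + i + 3 * j < M then 1 else 0) =
      ∑ j ∈ Finset.range A, (M - (3 * j + e)) := by
  apply Finset.sum_congr rfl
  intro j _
  rw [← inner A (M - (3 * j + e)) (by omega)]
  apply Finset.sum_congr rfl
  intro i _
  by_cases h : e + i + 3 * j < M
  · rw [if_pos h, if_pos (by omega)]
  · rw [if_neg h, if_neg (by omega)]

/-- The residue classes modulo three. -/
private theorem sum3 (g : ℕ → ℕ) (B : ℕ) : ∑ m ∈ Finset.range (3 * B), g m =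
    (∑ j ∈ Finset.range B, g (3 * j + 2)) + (∑ j ∈ Finset.range B, g (3 * j + 1)) +
      ∑ j ∈ Finset.range B, g (3 * j + 0) := by
  induction B with
  | zero => simp
  | succ B ih =>
    rw [show 3 * (B + 1) = 3 * B + 1 + 1 + 1 by ring, Finset.sum_range_succ,
      Finset.sum_range_succ, Finset.sum_range_succ, ih, Finset.sum_range_succ,
      Finset.sum_range_succ, Finset.sum_range_succ, add_zero]
    simp only [add_zero, add_assoc]
    omega

private theorem aT_le (c : ℕ) : aT c ≤ 2 := by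
  unfold aT
  omega

private theorem dd_odd (m : ℕ) : ddH3 (2 * m + 3) = 9 ^ m + 3 ^ m := by
  unfold ddH3
  rw [if_pos (by omega)]
  have h : (2 * m + 3) / 2 - 1 = m := by omega
  rw [h]

private theorem dd_even (m : ℕ) : ddH3 (2 * m + 4) = 3 * 9 ^ m := by
  unfold ddH3
  rw [if_neg (by omega)]
  have h : (2 * m + 4) / 2 - 2 = m := by omega
  rw [h]

private theorem DD_succ (n : ℕ) (hn : 2 ≤ n) : DDE 1 ddH3 (n + 1) = DDE 1 ddH3 n + ddH3 (n + 1) := by
  unfold DDE
  rw [Finset.sum_Ico_succ_top (by omega : 3 ≤ n + 1)]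
  ring

private theorem sq9 (m : ℕ) : (9 : ℕ) ^ m = 3 ^ m * 3 ^ m := by
  rw [← mul_pow]
  norm_num

private theorem DD_evenOdd (m : ℕ) : DDE 1 ddH3 (2 * m + 2) * 2 = 3 ^ m * (3 ^ m + 1) ∧
    DDE 1 ddH3 (2 * m + 3) * 2 = 3 * (3 ^ m * (3 ^ m + 1)) := by
  induction m with
  | zero => decide
  | succ m ih =>
    have h1 : DDE 1 ddH3 (2 * (m + 1) + 2) * 2 = 3 ^ (m + 1) * (3 ^ (m + 1) + 1) := by
      rw [show 2 * (m + 1) + 2 = (2 * m + 3) + 1 by ring, DD_succ _ (by omega), add_mul, ih.2,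
        show 2 * m + 3 + 1 = 2 * m + 4 by ring, dd_even, sq9, pow_succ]
      ring
    refine ⟨h1, ?_⟩
    rw [show 2 * (m + 1) + 3 = (2 * (m + 1) + 2) + 1 by ring, DD_succ _ (by omega), add_mul, h1,
      show 2 * (m + 1) + 2 + 1 = 2 * (m + 1) + 3 by ring, dd_odd, sq9]
    ring

/-- CNT. -/
theorem hCnt : TCnt := by
  constructor
  · intro k hk
    obtain ⟨m, rfl⟩ : ∃ m, k = m + 1 := ⟨k - 1, by omega⟩
    have hq : (3 : ℕ) ^ (m + 1) = 3 * 3 ^ m := by rw [pow_succ]; ring
    have h3 : ((Finset.range 3 ×ˢ Finset.range (3 ^ (m + 1)) ×ˢ Finset.range (3 ^ (m + 1))).filter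
        fun t : ℕ × ℕ × ℕ => aT t.1 + t.2.1 + 3 * t.2.2 < 3 ^ (m + 1 - 1) ∧
          t.2.1 + t.2.2 < 3 ^ (m + 1 - 1)) =
        ((Finset.range 3 ×ˢ Finset.range (3 ^ (m + 1)) ×ˢ Finset.range (3 ^ (m + 1))).filter
        fun t : ℕ × ℕ × ℕ => aT t.1 + t.2.1 + 3 * t.2.2 < 3 ^ m) := by
      apply Finset.filter_congr
      intro t _
      rw [show m + 1 - 1 = m by omega]
      constructor
      · intro h
        exact h.1
      · intro h
        constructor <;> omega
    rw [h3, split (3 ^ (m + 1)) (fun c i j => aT c + i + 3 * j < 3 ^ m)]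
    have h7 : DDE 1 ddH3 (2 * (m + 1)) * 2 = 3 ^ m * (3 ^ m + 1) := (DD_evenOdd m).1
    have b0 : aT 0 = 2 := rfl
    have b1 : aT 1 = 1 := rfl
    have b2 : aT 2 = 0 := rfl
    simp only [b0, b1, b2]
    rw [pairs3 _ _ 2 (by omega), pairs3 _ _ 1 (by omega), pairs3 _ _ 0 (by omega),
      ← sum3 (fun x => 3 ^ m - x) (3 ^ (m + 1)), cut (fun x => x) rfl _ (3 ^ m) (by omega)]
    have h8 := gauss (3 ^ m)
    omega
  · intro k hk
    obtain ⟨m, rfl⟩ : ∃ m, k = m + 1 := ⟨k - 1, by omega⟩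
    have hq : (3 : ℕ) ^ (m + 1) = 3 * 3 ^ m := by rw [pow_succ]; ring
    have h3 : ((Finset.range 3 ×ˢ Finset.range (3 ^ (m + 1)) ×ˢ Finset.range (3 ^ (m + 1))).filter
        fun t : ℕ × ℕ × ℕ => aT t.1 + t.2.1 + 3 * t.2.2 < 3 ^ (m + 1) ∧
          t.2.1 + t.2.2 < 3 ^ (m + 1 - 1)) =
        ((Finset.range 3 ×ˢ Finset.range (3 ^ (m + 1)) ×ˢ Finset.range (3 ^ (m + 1))).filter
        fun t : ℕ × ℕ × ℕ => t.2.1 + t.2.2 < 3 ^ m) := by
      apply Finset.filter_congr
      intro t _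
      rw [hq, show m + 1 - 1 = m by omega]
      have h1 := aT_le t.1
      constructor
      · intro h
        exact h.2
      · intro h
        constructor <;> omega
    rw [h3, split (3 ^ (m + 1)) (fun _ i j => i + j < 3 ^ m)]
    have h4 := pairs (3 ^ (m + 1)) (3 ^ m) (by omega)
    have h7 : DDE 1 ddH3 (2 * (m + 1) + 1) * 2 = 3 * (3 ^ m * (3 ^ m + 1)) := (DD_evenOdd m).2
    omega

end Pool.Agent.Helper62.TH3
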